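import Mathlib

/-!
# Étale motivic cohomology of smooth proper schemes over finite fields
-/

set_option autoImplicit false

namespace Pool.Agent.Run7.h312.FG

/-- The known properties of the étale motivic cohomology groups `H i n = H^i(X_et, ℤ(n))` of a smooth
proper connected scheme `X` of dimension `d` over a finite field that are used. For `n ≥ 0`, `i ≤ 2 n`
the torsion subgroup is finite: it is a quotient of `H^(i - 1)(X_et, ℚ/ℤ(n))`, which is finite by the
theorems of Deligne and Gabber (Colliot-Thélène, Sansuc and Soulé; Gros and Suwa for the `p`-part).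
There is no torsion for `i ≤ 0`, since `H^i(X_et, ℤ/m(n)) = 0` for `i < 0`. For `n > d` the group
`H^(2 n)(X_et, ℤ(n)) ⊗ ℚ = CH^n(X) ⊗ ℚ` is zero. The group `H^(2 d)(X_et, ℤ(d))` is finitely
generated (modulo a finite group it is contained in `ℚ = CH_0(X) ⊗ ℚ`, with bounded denominators). -/
structure IsEtale (H : ℤ → ℤ → Type) [∀ i n, AddCommGroup (H i n)] (d : ℕ) : Prop where
  torsion : ∀ i n, 0 ≤ n → i ≤ 2 * n → {x : H i n | ∃ m : ℕ, m ≠ 0 ∧ m • x = 0}.Finite
  free : ∀ i n, 0 ≤ n → i ≤ 0 → ∀ (m : ℕ) (x : H i n), m ≠ 0 → m • x = 0 → x = 0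
  above : ∀ n : ℤ, d < n → ∀ x : H (2 * n) n, ∃ m : ℕ, m ≠ 0 ∧ m • x = 0
  top : AddGroup.FG (H (2 * d) d)

/-- **The groups `H^i(X_et, ℤ(n))`, `n ≥ 0`, `i < 2 n`, are finite**, and zero for `i ≤ 0`; for `n > d`
also `H^(2 n)(X_et, ℤ(n))` is finite, and `H^(2 d)(X_et, ℤ(d))` is finitely generated. In particular
`H^i(X_et, ℤ(n))` is finitely generated for all `n ≥ d = dim X` and all `i ≤ 2 n`. -/
def IsFinite (H : ℤ → ℤ → Type) [∀ i n, AddCommGroup (H i n)] (d : ℕ) : Prop :=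
  (∀ i n, 0 ≤ n → i < 2 * n → Finite (H i n)) ∧
  (∀ i n, 0 < n → i ≤ 0 → ∀ x : H i n, x = 0) ∧
  (∀ n : ℤ, d < n → Finite (H (2 * n) n)) ∧ AddGroup.FG (H (2 * d) d) ∧
  ∀ i n : ℤ, d ≤ n → i ≤ 2 * n → AddGroup.FG (H i n)

/-- If the groups `H^i(X, ℚ(n))` are zero for `i ≠ 2 n` (Parshin's conjecture). -/
theorem isFinite_of {H : ℤ → ℤ → Type} [∀ i n, AddCommGroup (H i n)] {d : ℕ} (h : IsEtale H d)
    (hp : ∀ i n : ℤ, i ≠ 2 * n → ∀ x : H i n, ∃ m : ℕ, m ≠ 0 ∧ m • x = 0) : IsFinite H d := by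
  have h1 : ∀ i n, 0 ≤ n → i < 2 * n → Finite (H i n) := by
    intro i n hn hi
    have h2 := h.torsion i n hn hi.le
    have h3 : {x : H i n | ∃ m : ℕ, m ≠ 0 ∧ m • x = 0} = Set.univ := by
      ext x
      simpa using hp i n hi.ne x
    rw [h3] at h2
    exact Set.finite_univ_iff.1 h2
  have h4 : ∀ n : ℤ, d < n → Finite (H (2 * n) n) := by
    intro n hn
    have h2 := h.torsion (2 * n) n (by omega) le_rfl
    have h3 : {x : H (2 * n) n | ∃ m : ℕ, m ≠ 0 ∧ m • x = 0} = Set.univ := by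
      ext x
      simpa using h.above n hn x
    rw [h3] at h2
    exact Set.finite_univ_iff.1 h2
  refine ⟨h1, fun i n hn hi x => ?_, h4, h.top, fun i n hn hi => ?_⟩
  · obtain ⟨m, hm, hx⟩ := hp i n (by omega) x
    exact h.free i n hn.le hi m x hm hx
  · rcases lt_or_eq_of_le hi with h5 | rfl
    · have := h1 i n (by omega) h5
      exact AddGroup.fg_of_finite
    · rcases lt_or_eq_of_le hn with h5 | rfl
      · have := h4 n h5
        exact AddGroup.fg_of_finite
      · exact h.top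

end Pool.Agent.Run7.h312.FG
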