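import Mathlib
import Pool.Agent.Run7.h312.FG.Etale
import Pool.Agent.TH170.GS.TBDefs

/-!
# Étale motivic cohomology of schemes over finite fields generated by abelian varieties: definitions
-/

set_option autoImplicit false

namespace Pool.Agent.Run7.h312.FG

open Pool.Agent.W495.TA Pool.Agent.W495.FM Pool.Agent.TH170

variable {Ω : Type} [Field Ω] {V : Type}

/-- The scheme `X` is smooth, proper and connected of dimension `d` over a finite field, with the
étale motivic cohomology groups `H i n = H^i(X_et, ℤ(n))`: up to torsion they are contained in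
`H^i(X, ℚ(n)) = H_(2 d - i)^M(X, ℚ(d - n))`, and for `i ≠ 2 n` there are no Frobenius invariant
elements in `H_(2 d - i)(X, ℚ_ℓ(d - n)) = H^i(X, ℚ_ℓ(n))`, since the absolute values of the
eigenvalues of the Frobenius are different from one (Deligne). -/
structure IsSmoothProper (T : Homology Ω V) (X : V) (H : ℤ → ℤ → Type)
    [∀ i n, AddCommGroup (H i n)] (d : ℕ) : Prop extends IsEtale H d where
  rational : ∀ i n : ℤ, ∃ f : H i n → T.M X (2 * d - i) (d - n),
    ∀ x, f x = 0 → ∃ m : ℕ, m ≠ 0 ∧ m • x = 0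
  weights : ∀ (i n : ℤ) (e : T.E X (2 * d - i) (d - n)), i ≠ 2 * n → T.frob X _ _ e = e → e = 0

/-- The finiteness theorem for all smooth proper schemes generated by abelian varieties with the
slope types `Φ`. -/
def Holds {p : ℕ} [Fact p.Prime] (ν : PadicAlgCl p ≃+* ℂ) {I : Type} (K : I → Type)
    [∀ i, Field (K i)] (M : ∀ i, (K i →+* ℂ) → ℤ) (Φ : ∀ i, Set (K i →+* ℂ)) : Prop :=
  ∀ (Ω : Type) [Field Ω] [IsAlgClosed Ω] [CharZero Ω] (V : Type) (T : Homology Ω V),
    IsHomology T → ∀ (X : V) (H : ℤ → ℤ → Type) [∀ i n, AddCommGroup (H i n)] (d : ℕ),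
    Generated T (GS.IsAbelianOfTypes ν K M Φ T) X → IsSmoothProper T X H d → IsFinite H d

end Pool.Agent.Run7.h312.FG
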