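import Mathlib
import Pool.Agent.Run7.h312.FG.Defs
import Pool.Agent.TH170.GS.TB

/-!
# Étale motivic cohomology of schemes over finite fields generated by abelian varieties
-/

set_option autoImplicit false

namespace Pool.Agent.Run7.h312.FG

open Pool.Agent.W495.TA Pool.Agent.W495.FM Pool.Agent.TH170

variable {Ω : Type} [Field Ω] {V : Type}

theorem reg_inj {T : Homology Ω V} {X : V} (hTB : TB T X) {i j : ℤ} {x : T.M X i j}
    (hx : T.reg X i j x = 0) : x = 0 := by
  by_contra hne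
  have h1 := (hTB i j).2.1 1 (fun _ => x) (LinearIndependent.of_subsingleton 0 hne)
  exact h1.ne_zero 0 hx

theorem isFinite_of_tb {T : Homology Ω V} (hT : IsHomology T) {X : V} (hTB : TB T X)
    {H : ℤ → ℤ → Type} [∀ i n, AddCommGroup (H i n)] {d : ℕ} (h : IsSmoothProper T X H d) :
    IsFinite H d := by
  refine isFinite_of h.toIsEtale fun i n hi x => ?_
  obtain ⟨f, hf⟩ := h.rational i n
  exact hf x (reg_inj hTB (h.weights i n _ hi (hT.frob_reg _ _ _ _)))

theorem holds_of {p : ℕ} [Fact p.Prime] {ν : PadicAlgCl p ≃+* ℂ} {I : Type} (K : I → Type)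
    [∀ i, Field (K i)] (M : ∀ i, (K i →+* ℂ) → ℤ) (Φ : ∀ i, Set (K i →+* ℂ))
    (h : ∀ Y : RedAV p ν, GS.OfTypes K M Φ Y → ∃ Z : RedAV p ν,
      TH117.BL.HasElementaryRelations Z ∧ TH117.BL.IsPowersTimesSupersingular Z Y) :
    Holds ν K M Φ := fun _ _ _ _ _ _ hT _ _ _ _ hX hH =>
  isFinite_of_tb hT (GS.tb_types h hT hX) hH

end Pool.Agent.Run7.h312.FG
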