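import Mathlib
import Pool.Agent.Run7.h312.FG.Etale
import Pool.Agent.W495.FM.Higher
import Pool.Agent.TH117.GN.Main

/-!
# Étale motivic cohomology: abelian varieties with elementary relations
-/

set_option autoImplicit false

namespace Pool.Agent.Run7.h312.FG

open Pool.Agent.W495.TA Pool.Agent.W495.FM Pool.Agent.TH117 Pool.Agent.TH117.GN

/-- Smooth projective schemes whose motive is a direct summand of a finite direct sum of twists of
motives of abelian varieties. -/
theorem isFinite_of_summand {p : ℕ} [Fact p.Prime] {ν : PadicAlgCl p ≃+* ℂ} {Ω : Type} [Field Ω]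
    [IsAlgClosed Ω] [CharZero Ω] {I : Type} {Y : I → RedAV p ν} {C : ∀ l, Cycles Ω (Y l)}
    {M : ∀ l, Motivic (C l)} {r : I → ℤ} {H : ℤ → ℤ → Type} [∀ i n, AddCommGroup (H i n)] {d : ℕ}
    (hC : ∀ l, IsChow (C l)) (hM : ∀ l, IsMotivic (M l)) (hT : ∀ l, TateHolds (C l))
    (hX : IsSummand M r H) (h : IsEtale H d) : IsFinite H d := by
  refine isFinite_of h fun i n hi x => ?_
  obtain ⟨N, hN, hx⟩ := summand_trivial hC hT hM r H hX i n hi x
  exact ⟨N, hN.ne', hx⟩

end Pool.Agent.Run7.h312.FG
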